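import Mathlib

/-! Square roots modulo `a` in an interval, on average over `a`. -/

namespace Pool.Agent.Q296.T3

open Finset

/-- pairwise congruent integers in `[-M, M]` -/
lemma card_class (M : ℕ) (L : ℕ) (hL : 1 ≤ L) (S : Finset ℤ)
    (h1 : ∀ b ∈ S, |b| ≤ M) (h2 : ∀ b ∈ S, ∀ b' ∈ S, (L : ℤ) ∣ b - b') :
    (S.card : ℝ) ≤ 2 * M / L + 1 := by
  have hLz : (0 : ℤ) < L := by exact_mod_cast hL
  have h3 : S.card ≤ (range (2 * M / L + 1)).card := by
    apply card_le_card_of_injOn (fun b : ℤ => ((b + (M : ℤ)) / (L : ℤ)).toNat)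
    · intro b hb
      have := h1 b hb
      rw [abs_le] at this
      have h4 : (b + M) / L ≤ (2 * M : ℤ) / L := Int.ediv_le_ediv hLz (by omega)
      have h5 : 0 ≤ (b + M) / (L : ℤ) := Int.ediv_nonneg (by omega) hLz.le
      simp only [coe_range, Set.mem_Iio]
      have h6 : ((2 * M : ℤ)) / L = ((2 * M / L : ℕ) : ℤ) := by push_cast; rfl
      omega
    · intro b hb b' hb' hbb
      have e1 := h1 b hb
      have e2 := h1 b' hb'
      rw [abs_le] at e1 e2
      have h5 : 0 ≤ (b + M) / (L : ℤ) := Int.ediv_nonneg (by omega) hLz.le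
      have h5' : 0 ≤ (b' + M) / (L : ℤ) := Int.ediv_nonneg (by omega) hLz.le
      have h6 : (b + M) / (L : ℤ) = (b' + M) / L := by
        simp only at hbb
        omega
      obtain ⟨k, hk⟩ := h2 b hb b' hb'
      have h8 : b + M = b' + M + L * k := by linarith
      have h9 : (b + M) / (L : ℤ) = (b' + M) / L + k := by
        rw [h8, Int.add_mul_ediv_left _ _ hLz.ne']
      have h10 : k = 0 := by omega
      rw [h10] at hk
      linarith
  rw [card_range] at h3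
  have h4 : (S.card : ℝ) ≤ ((2 * M / L : ℕ) : ℝ) + 1 := by exact_mod_cast h3
  have h5 : (((2 * M / L : ℕ)) : ℝ) ≤ ((2 * M : ℕ) : ℝ) / (L : ℝ) := Nat.cast_div_le
  push_cast at h5
  linarith

/-- the bound -/
noncomputable def sB (M a : ℕ) : ℝ :=
  ∑ a1 ∈ a.divisors, (2 * (M : ℝ) / (Nat.lcm a1 (a / a1) : ℕ) + 1)

lemma sB_nonneg (M a : ℕ) : 0 ≤ sB M a := by
  unfold sB
  apply sum_nonneg; intro i _; positivity

lemma count_le (M a : ℕ) (n : ℤ) (ha : 1 ≤ a) :
    (Nat.card {b : ℤ // |b| ≤ M ∧ (a : ℤ) ∣ b ^ 2 - n} : ℝ) ≤ sB M a := by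
  classical
  set T : Finset ℤ := (Icc (-(M : ℤ)) M).filter (fun b => (a : ℤ) ∣ b ^ 2 - n) with hT
  have hTm : ∀ b : ℤ, b ∈ T ↔ |b| ≤ M ∧ (a : ℤ) ∣ b ^ 2 - n := by
    intro b; rw [hT, mem_filter, mem_Icc, abs_le]
  have hcard : Nat.card {b : ℤ // |b| ≤ M ∧ (a : ℤ) ∣ b ^ 2 - n} = T.card := by
    rw [← Nat.card_eq_finsetCard]
    exact Nat.card_congr (Equiv.subtypeEquivRight (fun b => (hTm b).symm))
  rw [hcard]
  rcases T.eq_empty_or_nonempty with h0 | ⟨b0, hb0⟩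
  · rw [h0]; simp; exact sB_nonneg M a
  have hb0' := (hTm b0).1 hb0
  have haz : (a : ℤ) ≠ 0 := by exact_mod_cast (by omega : a ≠ 0)
  -- the fibres
  have hmaps : ∀ b ∈ T, Int.gcd a (b - b0) ∈ a.divisors := by
    intro b _
    rw [Nat.mem_divisors]
    refine ⟨?_, by omega⟩
    have := Int.gcd_dvd_left (a : ℤ) (b - b0)
    exact_mod_cast this
  rw [card_eq_sum_card_fiberwise (s := T) (t := a.divisors) (f := fun b => Int.gcd a (b - b0))
    (fun b hb => hmaps b hb)]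
  push_cast
  unfold sB
  apply sum_le_sum
  intro a1 ha1
  rw [Nat.mem_divisors] at ha1
  obtain ⟨a2, ha2⟩ := ha1.1
  have ha1p : 0 < a1 := Nat.pos_of_ne_zero (by rintro rfl; simp at ha2; omega)
  have ha2p : 0 < a2 := Nat.pos_of_ne_zero (by rintro rfl; simp at ha2; omega)
  have hdiv : a / a1 = a2 := by rw [ha2, Nat.mul_div_cancel_left _ ha1p]
  rw [hdiv]
  apply card_class M (Nat.lcm a1 a2) (Nat.lcm_pos ha1p ha2p)
  · intro b hb
    rw [mem_filter] at hb
    exact ((hTm b).1 hb.1).1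
  · have key : ∀ b ∈ T.filter (fun b => Int.gcd a (b - b0) = a1),
        (a1 : ℤ) ∣ b - b0 ∧ (a2 : ℤ) ∣ b + b0 := by
      intro b hb
      rw [mem_filter] at hb
      obtain ⟨hb1, hb2⟩ := hb
      have hb3 := (hTm b).1 hb1
      have h1 : (a1 : ℤ) ∣ b - b0 := by
        rw [← hb2]; exact Int.gcd_dvd_right _ _
      refine ⟨h1, ?_⟩
      have h2 : (a : ℤ) ∣ (b - b0) * (b + b0) := by
        have := dvd_sub hb3.2 hb0'.2
        have e : b ^ 2 - n - (b0 ^ 2 - n) = (b - b0) * (b + b0) := by ring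
        rwa [e] at this
      obtain ⟨c, hc⟩ := h1
      have h3 : (a1 : ℤ) * a2 ∣ a1 * (c * (b + b0)) := by
        have : ((a : ℕ) : ℤ) = (a1 : ℤ) * a2 := by rw [ha2]; push_cast; ring
        rw [← this]
        rw [hc] at h2
        have e : (a1 : ℤ) * c * (b + b0) = a1 * (c * (b + b0)) := by ring
        rwa [e] at h2
      have h4 : (a2 : ℤ) ∣ c * (b + b0) :=
        Int.dvd_of_mul_dvd_mul_left (by exact_mod_cast ha1p.ne') h3
      have h5 : IsCoprime (a2 : ℤ) c := by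
        rw [Int.isCoprime_iff_gcd_eq_one]
        have h6 : Int.gcd (a : ℤ) (b - b0) = a1 * Int.gcd a2 c := by
          rw [hc, ha2]; push_cast
          rw [Int.gcd_mul_left]; simp
        rw [hb2] at h6
        have : a1 * 1 = a1 * Int.gcd a2 c := by rw [mul_one]; exact h6
        exact (Nat.eq_of_mul_eq_mul_left ha1p this).symm
      exact h5.dvd_of_dvd_mul_left h4
    intro b hb b' hb'
    have h1 := key b hb
    have h2 := key b' hb'
    have h3 : (a1 : ℤ) ∣ b - b' := by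
      have := dvd_sub h1.1 h2.1
      have e : b - b0 - (b' - b0) = b - b' := by ring
      rwa [e] at this
    have h4 : (a2 : ℤ) ∣ b - b' := by
      have := dvd_sub h1.2 h2.2
      have e : b + b0 - (b' + b0) = b - b' := by ring
      rwa [e] at this
    rw [Int.natCast_dvd] at h3 h4 ⊢
    exact Nat.lcm_dvd h3 h4

/-- harmonic sum -/
noncomputable def HH (M : ℕ) : ℝ := ∑ k ∈ Icc 1 M, (1 : ℝ) / k

lemma HH_le (M : ℕ) : HH M ≤ 1 + Real.log M := by
  have := harmonic_le_one_add_log M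
  unfold HH
  rw [harmonic_eq_sum_Icc] at this
  push_cast at this
  simpa [one_div] using this

lemma HH_nonneg (M : ℕ) : 0 ≤ HH M := by
  unfold HH; apply sum_nonneg; intro i _; positivity

lemma sum_lcm (M : ℕ) :
    ∑ p ∈ (Icc 1 M) ×ˢ (Icc 1 M), (1 : ℝ) / (Nat.lcm p.1 p.2 : ℕ) ≤ HH M ^ 3 := by
  have h1 : HH M ^ 3 = ∑ q ∈ (Icc 1 M) ×ˢ ((Icc 1 M) ×ˢ (Icc 1 M)),
      (1 : ℝ) / (q.1 * (q.2.1 * q.2.2) : ℕ) := by
    rw [sum_product]
    simp_rw [sum_product]
    have : ∀ x ∈ Icc 1 M, ∑ y ∈ Icc 1 M, ∑ z ∈ Icc 1 M, (1 : ℝ) / ((x * (y * z) : ℕ) : ℝ)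
        = (1 / x) * (HH M * HH M) := by
      intro x _
      unfold HH
      rw [sum_mul_sum, mul_sum]
      apply sum_congr rfl
      intro y _
      rw [mul_sum]
      apply sum_congr rfl
      intro z _
      push_cast
      rw [one_div_mul_one_div, one_div_mul_one_div]
    rw [sum_congr rfl this, ← sum_mul]
    unfold HH; ring
  rw [h1]
  set φ : ℕ × ℕ → ℕ × (ℕ × ℕ) := fun p => (Nat.gcd p.1 p.2, p.1 / Nat.gcd p.1 p.2, p.2 / Nat.gcd p.1 p.2)
    with hφ
  have h2 : ∀ p ∈ (Icc 1 M) ×ˢ (Icc 1 M), (1 : ℝ) / (Nat.lcm p.1 p.2 : ℕ)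
      = (fun q : ℕ × (ℕ × ℕ) => (1 : ℝ) / (q.1 * (q.2.1 * q.2.2) : ℕ)) (φ p) := by
    intro p hp
    rw [mem_product, mem_Icc, mem_Icc] at hp
    simp only [hφ]
    congr 2
    have hg : 0 < Nat.gcd p.1 p.2 := Nat.gcd_pos_of_pos_left _ (by omega)
    have e1 := Nat.div_mul_cancel (Nat.gcd_dvd_left p.1 p.2)
    have e2 := Nat.div_mul_cancel (Nat.gcd_dvd_right p.1 p.2)
    have e3 := Nat.gcd_mul_lcm p.1 p.2
    apply Nat.eq_of_mul_eq_mul_left hg
    rw [e3]
    calc p.1 * p.2 = (p.1 / Nat.gcd p.1 p.2 * Nat.gcd p.1 p.2) * (p.2 / Nat.gcd p.1 p.2 * Nat.gcd p.1 p.2) := by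
          rw [e1, e2]
      _ = _ := by ring
  rw [sum_congr rfl h2, ← sum_image (f := fun q : ℕ × (ℕ × ℕ) => (1 : ℝ) / (q.1 * (q.2.1 * q.2.2) : ℕ))]
  · apply sum_le_sum_of_subset_of_nonneg
    · intro q hq
      rw [mem_image] at hq
      obtain ⟨p, hp, rfl⟩ := hq
      rw [mem_product, mem_Icc, mem_Icc] at hp
      have hg : 0 < Nat.gcd p.1 p.2 := Nat.gcd_pos_of_pos_left _ (by omega)
      have g1 : Nat.gcd p.1 p.2 ≤ p.1 := Nat.gcd_le_left _ (by omega)
      have g2 : Nat.gcd p.1 p.2 ≤ p.2 := Nat.gcd_le_right _ (by omega)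
      simp only [hφ, mem_product, mem_Icc]
      refine ⟨⟨hg, by omega⟩, ⟨Nat.div_pos g1 hg, (Nat.div_le_self _ _).trans (by omega)⟩,
        ⟨Nat.div_pos g2 hg, (Nat.div_le_self _ _).trans (by omega)⟩⟩
    · intro q _ _; positivity
  · intro p hp p' hp' h
    simp only [hφ, Prod.mk.injEq] at h
    have e1 := Nat.div_mul_cancel (Nat.gcd_dvd_left p.1 p.2)
    have e2 := Nat.div_mul_cancel (Nat.gcd_dvd_right p.1 p.2)
    have e1' := Nat.div_mul_cancel (Nat.gcd_dvd_left p'.1 p'.2)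
    have e2' := Nat.div_mul_cancel (Nat.gcd_dvd_right p'.1 p'.2)
    apply Prod.ext
    · rw [← e1, ← e1', h.2.1, h.1]
    · rw [← e2, ← e2', h.2.2, h.1]

lemma sum_sB (M : ℕ) : ∑ a ∈ Icc 1 M, sB M a ≤ 2 * M * HH M ^ 3 + M * HH M := by
  classical
  -- rewrite as a sum over pairs
  have h1 : ∑ a ∈ Icc 1 M, sB M a
      = ∑ a ∈ Icc 1 M, ∑ p ∈ a.divisorsAntidiagonal, (2 * (M : ℝ) / (Nat.lcm p.1 p.2 : ℕ) + 1) := by
    apply sum_congr rfl
    intro a ha
    unfold sB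
    rw [← Nat.map_div_right_divisors, sum_map]
    rfl
  rw [h1, ← sum_biUnion]
  · set F : Finset (ℕ × ℕ) := ((Icc 1 M) ×ˢ (Icc 1 M)).filter (fun p => p.1 * p.2 ≤ M) with hF
    have h2 : (Icc 1 M).biUnion Nat.divisorsAntidiagonal ⊆ F := by
      intro p hp
      rw [mem_biUnion] at hp
      obtain ⟨a, ha, hp⟩ := hp
      rw [mem_Icc] at ha
      rw [Nat.mem_divisorsAntidiagonal] at hp
      have p1 : 0 < p.1 := Nat.pos_of_ne_zero (by intro h; rw [h] at hp; simp at hp; omega)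
      have p2 : 0 < p.2 := Nat.pos_of_ne_zero (by intro h; rw [h] at hp; simp at hp; omega)
      have q1 : p.1 ≤ p.1 * p.2 := Nat.le_mul_of_pos_right _ p2
      have q2 : p.2 ≤ p.1 * p.2 := Nat.le_mul_of_pos_left _ p1
      rw [hF, mem_filter, mem_product, mem_Icc, mem_Icc]
      omega
    calc ∑ p ∈ (Icc 1 M).biUnion Nat.divisorsAntidiagonal, (2 * (M : ℝ) / (Nat.lcm p.1 p.2 : ℕ) + 1)
        ≤ ∑ p ∈ F, (2 * (M : ℝ) / (Nat.lcm p.1 p.2 : ℕ) + 1) :=
          sum_le_sum_of_subset_of_nonneg h2 (fun _ _ _ => by positivity)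
      _ = 2 * M * ∑ p ∈ F, (1 : ℝ) / (Nat.lcm p.1 p.2 : ℕ) + F.card := by
          rw [sum_add_distrib, mul_sum]
          congr 1
          · apply sum_congr rfl; intro p _; ring
          · simp
      _ ≤ 2 * M * HH M ^ 3 + M * HH M := by
          apply add_le_add
          · apply mul_le_mul_of_nonneg_left _ (by positivity)
            refine le_trans ?_ (sum_lcm M)
            exact sum_le_sum_of_subset_of_nonneg (filter_subset _ _) (fun _ _ _ => by positivity)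
          · have h3 : F.card = ∑ a ∈ Icc 1 M, ((Icc 1 M).filter (fun b => a * b ≤ M)).card := by
              rw [hF, card_filter, sum_product]
              apply sum_congr rfl
              intro a _
              rw [card_filter]
            rw [h3]
            push_cast
            unfold HH
            rw [mul_sum]
            apply sum_le_sum
            intro a ha
            rw [mem_Icc] at ha
            have h4 : (Icc 1 M).filter (fun b => a * b ≤ M) ⊆ Icc 1 (M / a) := by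
              intro b hb
              rw [mem_filter, mem_Icc] at hb
              rw [mem_Icc]
              refine ⟨hb.1.1, ?_⟩
              rw [Nat.le_div_iff_mul_le (by omega)]
              linarith [hb.2, mul_comm a b]
            have h5 := card_le_card h4
            rw [Nat.card_Icc] at h5
            have h6' : ((Icc 1 M).filter (fun b => a * b ≤ M)).card ≤ M / a := by
              exact h5.trans (le_of_eq (Nat.add_sub_cancel _ _))
            have h6 : ((((Icc 1 M).filter (fun b => a * b ≤ M)).card : ℕ) : ℝ) ≤ ((M / a : ℕ) : ℝ) :=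
              Nat.cast_le.2 h6'
            have h7 : ((M / a : ℕ) : ℝ) ≤ (M : ℝ) / a := Nat.cast_div_le
            rw [mul_one_div]
            linarith
  · intro a ha b hb hab
    rw [Function.onFun, disjoint_left]
    intro p hp hp'
    rw [Nat.mem_divisorsAntidiagonal] at hp hp'
    exact hab (hp.1.symm.trans hp'.1)

theorem root_count (η : ℝ) (hη : 0 < η) : ∃ (C : ℝ) (s : ℕ → ℕ → ℝ), 0 < C ∧
    (∀ M a, 0 ≤ s M a) ∧
    (∀ (M a : ℕ) (n : ℤ), 1 ≤ a →
      (Nat.card {b : ℤ // |b| ≤ M ∧ (a : ℤ) ∣ b ^ 2 - n} : ℝ) ≤ s M a) ∧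
    ∀ M : ℕ, 1 ≤ M → ∑ a ∈ Finset.Icc 1 M, s M a ≤ C * (M : ℝ) ^ (1 + η) := by
  refine ⟨3 * (1 + 3 / η) ^ 3, sB, by positivity, sB_nonneg, count_le, ?_⟩
  intro M hM
  have hM' : (1 : ℝ) ≤ M := by exact_mod_cast hM
  have h1 := sum_sB M
  have h2 := HH_le M
  have h3 := HH_nonneg M
  have hM0 : (0 : ℝ) < M := by linarith
  have hη3 : 0 < η / 3 := by positivity
  have h4 : 1 + Real.log M ≤ (1 + 3 / η) * (M : ℝ) ^ (η / 3) := by
    have h5 := Real.log_le_rpow_div (x := (M : ℝ)) (ε := η / 3) hM0.le hη3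
    have h6 : (1 : ℝ) ≤ (M : ℝ) ^ (η / 3) := Real.one_le_rpow hM' hη3.le
    have h7 : (M : ℝ) ^ (η / 3) / (η / 3) = 3 / η * (M : ℝ) ^ (η / 3) := by
      field_simp
    rw [h7] at h5
    linarith
  have h8 : HH M ^ 3 ≤ (1 + 3 / η) ^ 3 * (M : ℝ) ^ η := by
    calc HH M ^ 3 ≤ ((1 + 3 / η) * (M : ℝ) ^ (η / 3)) ^ 3 :=
          pow_le_pow_left₀ h3 (h2.trans h4) 3
      _ = (1 + 3 / η) ^ 3 * (M : ℝ) ^ η := by
          rw [mul_pow, ← Real.rpow_natCast ((M : ℝ) ^ (η / 3)) 3, ← Real.rpow_mul hM0.le]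
          congr 2
          push_cast; ring
  have h9 : HH M ≤ HH M ^ 3 := by
    have : 1 ≤ HH M := by
      unfold HH
      have : (1 : ℝ) / ((1 : ℕ) : ℝ) ≤ ∑ k ∈ Icc 1 M, (1 : ℝ) / k :=
        single_le_sum (f := fun k : ℕ => (1 : ℝ) / k) (fun i _ => by positivity)
          (mem_Icc.2 ⟨le_refl 1, hM⟩)
      simpa using this
    nlinarith [mul_nonneg h3 (by linarith : (0:ℝ) ≤ HH M - 1), sq_nonneg (HH M)]
  calc ∑ a ∈ Finset.Icc 1 M, sB M a ≤ 2 * M * HH M ^ 3 + M * HH M := h1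
    _ ≤ 3 * M * HH M ^ 3 := by nlinarith
    _ ≤ 3 * M * ((1 + 3 / η) ^ 3 * (M : ℝ) ^ η) := by
        apply mul_le_mul_of_nonneg_left h8; positivity
    _ = 3 * (1 + 3 / η) ^ 3 * (M : ℝ) ^ (1 + η) := by
        rw [Real.rpow_add hM0, Real.rpow_one]; ring

end Pool.Agent.Q296.T3
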